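import Mathlib
import Pool.Agent.R234.VT.Defs

/-! The vertex map of the paraboloids touching a plurisubharmonic function from above is
Lipschitz on the contact set. -/

set_option autoImplicit false

open Set Filter Topology Metric MeasureTheory

namespace Pool.Agent.R234.VT

variable {n : ℕ}

theorem norm_circ_sq (b w : Cn n) (θ : ℝ) : ‖circ b w θ‖ ^ 2 = ‖b‖ ^ 2 + ‖w‖ ^ 2 +
    2 * (Real.cos θ * (inner ℂ b w).re - Real.sin θ * (inner ℂ b w).im) := by
  unfold circ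
  rw [norm_add_sq (𝕜 := ℂ), norm_smul, Complex.norm_exp_ofReal_mul_I, one_mul, inner_smul_right]
  have h1 : RCLike.re (Complex.exp ((θ : ℂ) * Complex.I) * inner ℂ b w) =
      Real.cos θ * (inner ℂ b w).re - Real.sin θ * (inner ℂ b w).im := by
    rw [RCLike.re_eq_complex_re, Complex.mul_re, Complex.exp_ofReal_mul_I_re,
      Complex.exp_ofReal_mul_I_im]
  rw [h1]
  ring

theorem circ_sub (z w a : Cn n) (θ : ℝ) : circ z w θ - a = circ (z - a) w θ := by
  unfold circ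
  abel

theorem circ_continuous (z w : Cn n) : Continuous (circ z w) := by
  unfold circ
  fun_prop

/-- mean of a trigonometric polynomial -/
theorem mean_trig (a b c d e : ℝ) :
    (2 * Real.pi)⁻¹ * ∫ θ in (0 : ℝ)..(2 * Real.pi),
      (a + b * Real.cos θ + c * Real.sin θ + d * Real.cos θ ^ 2 + e * (Real.sin θ * Real.cos θ)) =
      a + d / 2 := by
  have hpi : Real.pi ≠ 0 := Real.pi_ne_zero
  rw [intervalIntegral.integral_add (by apply Continuous.intervalIntegrable; fun_prop)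
    (by apply Continuous.intervalIntegrable; fun_prop),
    intervalIntegral.integral_add (by apply Continuous.intervalIntegrable; fun_prop)
    (by apply Continuous.intervalIntegrable; fun_prop),
    intervalIntegral.integral_add (by apply Continuous.intervalIntegrable; fun_prop)
    (by apply Continuous.intervalIntegrable; fun_prop),
    intervalIntegral.integral_add (by apply Continuous.intervalIntegrable; fun_prop)
    (by apply Continuous.intervalIntegrable; fun_prop)]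
  rw [intervalIntegral.integral_const, intervalIntegral.integral_const_mul,
    intervalIntegral.integral_const_mul, intervalIntegral.integral_const_mul,
    intervalIntegral.integral_const_mul, integral_cos, integral_sin, integral_cos_sq,
    integral_sin_mul_cos₁]
  simp
  field_simp

/-- contact of the paraboloid with vertex `y` from above at `x`, over the set `K` -/
def Contact (K : Set (Cn n)) (φ : Cn n → EReal) (N : ℝ) (x y : Cn n) : Prop :=
  ∀ z ∈ K, φ z + ((N * (‖x - y‖ ^ 2 - ‖z - y‖ ^ 2) : ℝ) : EReal) ≤ φ x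

/-- the key inequality -/
theorem key {Ω : Set (Cn n)} {φ : Cn n → EReal} (hφ : IsPSH Ω φ) {K : Set (Cn n)} (hK : K ⊆ Ω)
    {N : ℝ} (hN : 0 < N) {x₁ x₂ y₁ y₂ : Cn n} (hx₁ : x₁ ∈ K) (hx₂ : x₂ ∈ K)
    (h₁ : Contact K φ N x₁ y₁) (h₂ : Contact K φ N x₂ y₂) (hb₁ : φ x₁ ≠ ⊥) (hb₂ : φ x₂ ≠ ⊥)
    {ρ : ℝ} (hρ : 0 < ρ) (hd : 4 * ‖x₁ - x₂‖ ≤ ρ)
    (hball : closedBall x₁ ρ ⊆ K) : ‖y₁ - y₂‖ ≤ 4 * ρ := by
  -- real values
  obtain ⟨a₁, ha₁⟩ : ∃ a : ℝ, φ x₁ = a :=
    ⟨(φ x₁).toReal, (EReal.coe_toReal (hφ.1 _ (hK hx₁)) hb₁).symm⟩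
  obtain ⟨a₂, ha₂⟩ : ∃ a : ℝ, φ x₂ = a :=
    ⟨(φ x₂).toReal, (EReal.coe_toReal (hφ.1 _ (hK hx₂)) hb₂).symm⟩
  have hP : ∀ (x y : Cn n) (a : ℝ), φ x = a → Contact K φ N x y → ∀ z ∈ K,
      φ z ≤ ((a + N * (‖z - y‖ ^ 2 - ‖x - y‖ ^ 2) : ℝ) : EReal) := by
    intro x y a ha h z hz
    have h3 := h z hz
    rw [ha] at h3
    induction hφz : φ z using EReal.rec with
    | bot => exact bot_le
    | coe t =>
        rw [hφz] at h3
        norm_cast at h3 ⊢
        linarith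
    | top => exact absurd hφz (hφ.1 z (hK hz))
  have hP₁ := hP x₁ y₁ a₁ ha₁ h₁
  have hP₂ := hP x₂ y₂ a₂ ha₂ h₂
  -- the difference is affine
  set q : Cn n := y₂ - y₁ with hq
  by_cases hq0 : ‖q‖ = 0
  · have : ‖y₁ - y₂‖ = 0 := by rw [← norm_neg, neg_sub]; exact hq0
    rw [this]
    positivity
  have hqpos : 0 < ‖q‖ := lt_of_le_of_ne (norm_nonneg _) (Ne.symm hq0)
  set w : Cn n := ((ρ / ‖q‖ : ℝ) : ℂ) • q with hw
  have hwn : ‖w‖ = ρ := by
    rw [hw, norm_smul, Complex.norm_real, Real.norm_of_nonneg (by positivity)]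
    field_simp
  have hqw : inner ℂ q w = ((ρ * ‖q‖ : ℝ) : ℂ) := by
    rw [hw, inner_smul_right, inner_self_eq_norm_sq_to_K]
    have : ((‖q‖ : ℝ) : ℂ) ≠ 0 := by exact_mod_cast hq0
    push_cast
    simp only [Complex.coe_algebraMap]
    field_simp
  -- two bounds on the circle
  set α : ℝ := (inner ℂ (x₁ - y₁) w).re with hα
  set β : ℝ := (inner ℂ (x₁ - y₁) w).im with hβ
  have hα₂ : (inner ℂ (x₁ - y₂) w).re = α - ρ * ‖q‖ := by
    have : x₁ - y₂ = (x₁ - y₁) - q := by rw [hq]; abel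
    rw [this, inner_sub_left, hqw, Complex.sub_re, Complex.ofReal_re]
  have hβ₂ : (inner ℂ (x₁ - y₂) w).im = β := by
    have : x₁ - y₂ = (x₁ - y₁) - q := by rw [hq]; abel
    rw [this, inner_sub_left, hqw, Complex.sub_im, Complex.ofReal_im, sub_zero]
  have hcirc : ∀ θ, circ x₁ w θ ∈ K := by
    intro θ
    apply hball
    rw [mem_closedBall, dist_eq_norm, circ, add_sub_cancel_left, norm_smul,
      Complex.norm_exp_ofReal_mul_I, one_mul, hwn]
  -- the value of the second paraboloid at x₁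
  set b : ℝ := a₂ + N * (‖x₁ - y₂‖ ^ 2 - ‖x₂ - y₂‖ ^ 2) with hb
  have hab : a₁ ≤ b := by
    have := hP₂ x₁ hx₁
    rw [ha₁] at this
    exact_mod_cast this
  have hba : b - a₁ ≤ 2 * N * ‖q‖ * ‖x₁ - x₂‖ := by
    have h3 := hP₁ x₂ hx₂
    rw [ha₂] at h3
    have h4 : a₂ ≤ a₁ + N * (‖x₂ - y₁‖ ^ 2 - ‖x₁ - y₁‖ ^ 2) := by exact_mod_cast h3
    have h5 : ‖x₂ - y₁‖ ^ 2 - ‖x₁ - y₁‖ ^ 2 + ‖x₁ - y₂‖ ^ 2 - ‖x₂ - y₂‖ ^ 2 =
        2 * (inner ℂ q (x₂ - x₁)).re := by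
      have e1 : x₂ - y₁ = (x₂ - y₂) + q := by rw [hq]; abel
      have e2 : x₁ - y₁ = (x₁ - y₂) + q := by rw [hq]; abel
      rw [e1, e2, norm_add_sq (𝕜 := ℂ), norm_add_sq (𝕜 := ℂ)]
      have e3 : (inner ℂ q (x₂ - x₁)).re = RCLike.re (inner ℂ (x₂ - y₂) q) -
          RCLike.re (inner ℂ (x₁ - y₂) q) := by
        rw [← map_sub, ← inner_sub_left, sub_sub_sub_cancel_right, ← inner_conj_symm,
          ← RCLike.re_eq_complex_re]
        exact RCLike.conj_re _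
      rw [e3]
      ring
    have h6 : (inner ℂ q (x₂ - x₁)).re ≤ ‖q‖ * ‖x₁ - x₂‖ := by
      refine (Complex.re_le_norm _).trans ((norm_inner_le_norm _ _).trans ?_)
      rw [norm_sub_rev x₂ x₁]
    rw [hb]
    nlinarith [mul_le_mul_of_nonneg_left h6 hN.le]
  -- a majorant on the circle
  set h : ℝ → ℝ := fun θ =>
    (a₁ + N * ρ ^ 2 + (b - a₁) / 2) + (2 * N * α + (b - a₁) / 2 - N * ρ * ‖q‖) * Real.cos θ +
      (-2 * N * β) * Real.sin θ + (-(N * ρ * ‖q‖)) * Real.cos θ ^ 2 +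
      0 * (Real.sin θ * Real.cos θ) with hh
  have hmaj : ∀ θ, φ (circ x₁ w θ) ≤ (h θ : EReal) := by
    intro θ
    have e1 := hP₁ _ (hcirc θ)
    have e2 := hP₂ _ (hcirc θ)
    rw [circ_sub, norm_circ_sq, ← hα, ← hβ, hwn] at e1
    rw [circ_sub, norm_circ_sq, hα₂, hβ₂, hwn] at e2
    induction hφz : φ (circ x₁ w θ) using EReal.rec with
    | bot => exact bot_le
    | coe t =>
        rw [hφz] at e1 e2
        norm_cast at e1 e2 ⊢
        have c1 : 0 ≤ (1 - Real.cos θ) / 2 := by linarith [Real.cos_le_one θ]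
        have c2 : 0 ≤ (1 + Real.cos θ) / 2 := by linarith [Real.neg_one_le_cos θ]
        have e3 := mul_le_mul_of_nonneg_left e1 c1
        have e4 := mul_le_mul_of_nonneg_left e2 c2
        have e5 : h θ = (1 - Real.cos θ) / 2 * (a₁ + N * (‖x₁ - y₁‖ ^ 2 + ρ ^ 2 +
            2 * (Real.cos θ * α - Real.sin θ * β) - ‖x₁ - y₁‖ ^ 2)) +
            (1 + Real.cos θ) / 2 * (a₂ + N * (‖x₁ - y₂‖ ^ 2 + ρ ^ 2 +
            2 * (Real.cos θ * (α - ρ * ‖q‖) - Real.sin θ * β) - ‖x₂ - y₂‖ ^ 2)) := by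
          rw [hh, hb]
          ring
        rw [e5]
        linarith
    | top => exact absurd hφz (hφ.1 _ (hK (hcirc θ)))
  have hmean := hφ.2.2 x₁ w (fun ζ hζ => hK (hball (by
    rw [mem_closedBall, dist_eq_norm, add_sub_cancel_left, norm_smul, hwn]
    nlinarith))) h (by rw [hh]; fun_prop) (fun θ _ => hmaj θ)
  rw [ha₁, hh, mean_trig] at hmean
  have hm2 : a₁ ≤ a₁ + N * ρ ^ 2 + (b - a₁) / 2 + -(N * ρ * ‖q‖) / 2 := by exact_mod_cast hmean
  have hfin : ‖q‖ ≤ 4 * ρ := by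
    have h7 : N * ρ * ‖q‖ ≤ 2 * N * ρ ^ 2 + 2 * N * ‖q‖ * ‖x₁ - x₂‖ := by linarith
    have h8 : 2 * N * ‖q‖ * ‖x₁ - x₂‖ ≤ N * ρ * ‖q‖ / 2 := by
      have : N * ‖q‖ * (4 * ‖x₁ - x₂‖) ≤ N * ‖q‖ * ρ :=
        mul_le_mul_of_nonneg_left hd (by positivity)
      linarith
    have h9 : N * ρ * ‖q‖ ≤ N * ρ * (4 * ρ) := by nlinarith
    exact le_of_mul_le_mul_left h9 (by positivity)
  rw [← norm_neg, neg_sub]
  exact hfin

end Pool.Agent.R234.VT
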