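import Mathlib
import Pool.Agent.R234.VT.A

/-! The contact set is large; conclusion. -/

set_option autoImplicit false

open Set Filter Topology Metric MeasureTheory Module

namespace Pool.Agent.R234.VT

variable {n : ℕ}

theorem quad_continuous (N : ℝ) (y : Cn n) :
    Continuous fun z : Cn n => ((-(N * ‖z - y‖ ^ 2) : ℝ) : EReal) :=
  continuous_coe_real_ereal.comp (by fun_prop)

theorem exists_contact {Ω : Set (Cn n)} {φ : Cn n → EReal} (hφ : IsPSH Ω φ) {K : Set (Cn n)}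
    (hK : K ⊆ Ω) (hc : IsCompact K) (hne : K.Nonempty) (N : ℝ) (y : Cn n) :
    ∃ x ∈ K, Contact K φ N x y := by
  have hu : UpperSemicontinuousOn (fun z => φ z + ((-(N * ‖z - y‖ ^ 2) : ℝ) : EReal)) K := by
    refine UpperSemicontinuousOn.add' (hφ.2.1.mono hK)
      ((quad_continuous N y).upperSemicontinuous.upperSemicontinuousOn K) fun x _ => ?_
    exact EReal.continuousAt_add (Or.inr (EReal.coe_ne_bot _)) (Or.inr (EReal.coe_ne_top _))
  obtain ⟨x, hx, hmax⟩ := hu.exists_isMaxOn hne hc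
  refine ⟨x, hx, fun z hz => ?_⟩
  have h1 := hmax hz
  simp only [mem_ofPred_eq] at h1
  induction hφz : φ z using EReal.rec with
  | bot => rw [EReal.bot_add]; exact bot_le
  | coe t =>
      rw [hφz] at h1
      induction hφx : φ x using EReal.rec with
      | bot =>
          rw [hφx, EReal.bot_add] at h1
          norm_cast at h1
      | coe s =>
          rw [hφx] at h1
          norm_cast at h1 ⊢
          linarith
      | top => exact le_top
  | top => exact absurd hφz (hφ.1 z (hK hz))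

/-- the set of contact pairs is closed -/
theorem isClosed_contact {Ω : Set (Cn n)} {φ : Cn n → EReal} (hφ : IsPSH Ω φ) {K : Set (Cn n)}
    (hK : K ⊆ Ω) (hc : IsClosed K) (N : ℝ) {V : Set (Cn n)} (hV : IsClosed V) :
    IsClosed {p : Cn n × Cn n | p.1 ∈ K ∧ p.2 ∈ V ∧ Contact K φ N p.1 p.2} := by
  rw [isClosed_iff_frequently]
  intro p hp
  have h1 : p.1 ∈ K := by
    exact isClosed_iff_frequently.1 (hc.preimage (continuous_fst (X := Cn n) (Y := Cn n))) p
      (hp.mono fun q hq => hq.1)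
  have h2 : p.2 ∈ V := by
    exact isClosed_iff_frequently.1 (hV.preimage (continuous_snd (X := Cn n) (Y := Cn n))) p
      (hp.mono fun q hq => hq.2.1)
  refine ⟨h1, h2, fun z hz => ?_⟩
  by_contra hlt
  rw [not_le] at hlt
  obtain ⟨e, he1, he2⟩ := exists_between hlt
  have h3 : ∀ᶠ x in 𝓝[K] p.1, φ x < e := (hφ.2.1.mono hK) p.1 h1 e he1
  have h4 : ∀ᶠ q : Cn n × Cn n in 𝓝 p, q.1 ∈ K → φ q.1 < e := by
    rw [eventually_nhdsWithin_iff] at h3
    exact continuousAt_fst.eventually h3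
  have hcont : ContinuousAt (fun q : Cn n × Cn n =>
      φ z + ((N * (‖q.1 - q.2‖ ^ 2 - ‖z - q.2‖ ^ 2) : ℝ) : EReal)) p := by
    have h5 : ContinuousAt (fun q : EReal × EReal => q.1 + q.2)
        (φ z, ((N * (‖p.1 - p.2‖ ^ 2 - ‖z - p.2‖ ^ 2) : ℝ) : EReal)) :=
      EReal.continuousAt_add (Or.inr (EReal.coe_ne_bot _)) (Or.inr (EReal.coe_ne_top _))
    have h6 : ContinuousAt (fun q : Cn n × Cn n =>
        ((φ z, ((N * (‖q.1 - q.2‖ ^ 2 - ‖z - q.2‖ ^ 2) : ℝ) : EReal)) : EReal × EReal)) p := by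
      refine ContinuousAt.prodMk continuousAt_const ?_
      exact (continuous_coe_real_ereal.comp (by fun_prop)).continuousAt
    exact ContinuousAt.comp (f := fun q : Cn n × Cn n =>
        ((φ z, ((N * (‖q.1 - q.2‖ ^ 2 - ‖z - q.2‖ ^ 2) : ℝ) : EReal)) : EReal × EReal)) h5 h6
  have h5 := hcont.eventually (lt_mem_nhds he2)
  obtain ⟨q, hq, h6, h7⟩ := (hp.and_eventually (h4.and h5)).exists
  exact absurd (hq.2.2 z hz) (not_le.2 ((h6 hq.1).trans h7))

/-- a point of contact in the interior is not exceptional -/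
theorem not_exceptional {Ω : Set (Cn n)} {φ : Cn n → EReal} (hφ : IsPSH Ω φ) {x₀ : Cn n} {R : ℝ}
    (hK : closedBall x₀ R ⊆ Ω) {N : ℝ} {x y : Cn n} (hx : x ∈ ball x₀ R)
    (h : Contact (closedBall x₀ R) φ N x y) : x ∉ exceptional Ω φ := by
  intro hE
  refine hE.2 ⟨ball x₀ R, fun z => N * ‖z - y‖ ^ 2, isOpen_ball, ball_subset_closedBall.trans hK,
    hx, ?_, ?_⟩
  · have : ContDiff ℝ 2 fun z : Cn n => N * ‖z - y‖ ^ 2 :=
      contDiff_const.mul ((contDiff_id.sub contDiff_const).norm_sq ℝ)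
    exact this.contDiffOn
  · intro z hz
    have h1 := h z (ball_subset_closedBall hz)
    induction hφz : φ z using EReal.rec with
    | bot => rw [EReal.bot_sub]; exact bot_le
    | coe t =>
        rw [hφz] at h1
        induction hφx : φ x using EReal.rec with
        | bot =>
            rw [hφx] at h1
            norm_cast at h1
        | coe s =>
            rw [hφx] at h1
            norm_cast at h1 ⊢
            linarith
        | top => exact absurd hφx (hφ.1 x (hK (ball_subset_closedBall hx)))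
    | top => exact absurd hφz (hφ.1 z (hK (ball_subset_closedBall hz)))

/-- the measure of the contact set -/
theorem measure_contact (ν : Measure (Cn n)) (hν : ν = μH[(finrank ℝ (Cn n) : ℝ)])
    {Ω : Set (Cn n)} {φ : Cn n → EReal} (hφ : IsPSH Ω φ) {x₀ : Cn n} {R : ℝ} (hR : 0 < R)
    (hK : closedBall x₀ R ⊆ Ω) {x₁ : Cn n} (hx₁ : x₁ ∈ closedBall x₀ (R / 64)) (hb : φ x₁ ≠ ⊥) :
    ∃ A : Set (Cn n), IsClosed A ∧ A ⊆ closedBall x₀ R ∧ Disjoint A (exceptional Ω φ) ∧
      ν (closedBall x₀ (R / 64)) ≤ (16 : ENNReal) ^ (finrank ℝ (Cn n)) * ν A := by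
  set K := closedBall x₀ R with hKd
  set V := closedBall x₀ (R / 64) with hVd
  have hKc : IsCompact K := isCompact_closedBall _ _
  have hVK : V ⊆ K := closedBall_subset_closedBall (by linarith)
  have hne : K.Nonempty := ⟨x₀, mem_closedBall_self hR.le⟩
  -- bounds
  obtain ⟨xm, hxm, hmax⟩ := (hφ.2.1.mono hK).exists_isMaxOn hne hKc
  have hmax' : ∀ z ∈ K, φ z ≤ φ xm := fun z hz => hmax hz
  have hmb : φ xm ≠ ⊥ := fun h => hb (le_bot_iff.1 (h ▸ hmax' x₁ (hVK hx₁)))
  obtain ⟨S, hS⟩ : ∃ a : ℝ, φ xm = a :=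
    ⟨(φ xm).toReal, (EReal.coe_toReal (hφ.1 _ (hK hxm)) hmb).symm⟩
  obtain ⟨s, hs⟩ : ∃ a : ℝ, φ x₁ = a :=
    ⟨(φ x₁).toReal, (EReal.coe_toReal (hφ.1 _ (hK (hVK hx₁))) hb).symm⟩
  have hsS : s ≤ S := by
    have := hmax' x₁ (hVK hx₁)
    rw [hs, hS] at this
    exact_mod_cast this
  set N : ℝ := (S - s + 1) / (R / 64) ^ 2 with hN
  have hNpos : 0 < N := by
    rw [hN]
    exact div_pos (by linarith) (by positivity)
  have hNR : S - s ≤ N * (R / 64) ^ 2 := by
    rw [hN, div_mul_cancel₀ _ (by positivity)]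
    linarith
  -- contact points are near the centre
  have hloc : ∀ x ∈ K, ∀ y ∈ V, Contact K φ N x y → φ x ≠ ⊥ ∧ x ∈ closedBall x₀ (R / 16) := by
    intro x hx y hy h
    have h1 := h x₁ (hVK hx₁)
    rw [hs] at h1
    have hbx : φ x ≠ ⊥ := by
      intro h2
      rw [h2] at h1
      norm_cast at h1
    refine ⟨hbx, ?_⟩
    have h2 : s + N * (‖x - y‖ ^ 2 - ‖x₁ - y‖ ^ 2) ≤ S := by
      have h3 := h1.trans (hmax' x hx)
      rw [hS] at h3
      exact_mod_cast h3
    have h3 : ‖x₁ - y‖ ≤ 2 * (R / 64) := by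
      rw [← dist_eq_norm]
      refine (dist_triangle_right x₁ y x₀).trans ?_
      rw [mem_closedBall] at hx₁ hy
      linarith
    have h4 : ‖x₁ - y‖ ^ 2 ≤ (2 * (R / 64)) ^ 2 := pow_le_pow_left₀ (norm_nonneg _) h3 2
    have h5 : N * ‖x - y‖ ^ 2 ≤ N * (5 * (R / 64) ^ 2) := by
      nlinarith [mul_le_mul_of_nonneg_left h4 hNpos.le]
    have h6 : ‖x - y‖ ^ 2 ≤ (3 * (R / 64)) ^ 2 := by
      have := le_of_mul_le_mul_left h5 hNpos
      nlinarith [sq_nonneg (R / 64)]
    have h7 : ‖x - y‖ ≤ 3 * (R / 64) := by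
      exact abs_le_of_sq_le_sq' h6 (by positivity) |>.2
    rw [mem_closedBall]
    refine (dist_triangle x y x₀).trans ?_
    rw [dist_eq_norm x y]
    rw [hVd, mem_closedBall] at hy
    linarith
  set C : Set (Cn n × Cn n) := {p | p.1 ∈ K ∧ p.2 ∈ V ∧ Contact K φ N p.1 p.2} with hC
  have hCc : IsCompact C := by
    refine (hKc.prod (isCompact_closedBall x₀ (R / 64))).of_isClosed_subset
      (isClosed_contact hφ hK hKc.isClosed N isClosed_closedBall) ?_
    intro p hp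
    exact ⟨hp.1, hp.2.1⟩
  set A : Set (Cn n) := Prod.fst '' C with hA
  have hAcl : IsClosed A := (hCc.image continuous_fst).isClosed
  have hAK : A ⊆ K := by
    rintro _ ⟨p, hp, rfl⟩
    exact hp.1
  -- the vertex map
  have hex : ∀ x ∈ A, ∃ y ∈ V, Contact K φ N x y := by
    rintro _ ⟨p, hp, rfl⟩
    exact ⟨p.2, hp.2.1, hp.2.2⟩
  have hkey : ∀ x ∈ K, ∀ x' ∈ K, ∀ y ∈ V, ∀ y' ∈ V, Contact K φ N x y → Contact K φ N x' y' →
      ‖y - y'‖ ≤ 16 * ‖x - x'‖ := by
    intro x hx x' hx' y hy y' hy' h h'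
    obtain ⟨hb1, hc1⟩ := hloc x hx y hy h
    obtain ⟨hb2, hc2⟩ := hloc x' hx' y' hy' h'
    have hd : ‖x - x'‖ ≤ R / 8 := by
      rw [← dist_eq_norm]
      refine (dist_triangle_right x x' x₀).trans ?_
      rw [mem_closedBall] at hc1 hc2
      linarith
    have hmain : ∀ ρ : ℝ, 0 < ρ → 4 * ‖x - x'‖ ≤ ρ → ρ ≤ R / 2 → ‖y - y'‖ ≤ 4 * ρ := by
      intro ρ hρ h1 h2
      refine key hφ hK hNpos hx hx' h h' hb1 hb2 hρ h1 ?_
      refine closedBall_subset_closedBall' ?_
      rw [mem_closedBall] at hc1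
      linarith
    rcases (norm_nonneg (x - x')).eq_or_lt with h0 | h0
    · rw [← h0]
      refine le_of_forall_pos_le_add fun ε hε => ?_
      have h1 := hmain (min (R / 2) (ε / 4)) (lt_min (by positivity) (by positivity))
        (by rw [← h0, mul_zero]; exact le_min (by positivity) (by positivity)) (min_le_left _ _)
      have h2 : min (R / 2) (ε / 4) ≤ ε / 4 := min_le_right _ _
      linarith
    · have h1 := hmain (4 * ‖x - x'‖) (by positivity) le_rfl (by linarith)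
      linarith
  choose! g hgV hgC using hex
  have hlip : LipschitzOnWith 16 g A := by
    refine LipschitzOnWith.of_dist_le_mul fun x hx x' hx' => ?_
    rw [dist_eq_norm, dist_eq_norm]
    exact hkey x (hAK hx) x' (hAK hx') _ (hgV x hx) _ (hgV x' hx') (hgC x hx) (hgC x' hx')
  have hsurj : V ⊆ g '' A := by
    intro y hy
    obtain ⟨x, hx, hxc⟩ := exists_contact hφ hK hKc hne N y
    have hxA : x ∈ A := ⟨(x, y), ⟨hx, hy, hxc⟩, rfl⟩
    refine ⟨x, hxA, ?_⟩
    have h1 := hkey x hx x hx (g x) (hgV x hxA) y hy (hgC x hxA) hxc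
    rw [sub_self, norm_zero, mul_zero] at h1
    exact sub_eq_zero.1 (norm_le_zero_iff.1 h1)
  refine ⟨A, hAcl, hAK, ?_, ?_⟩
  · rw [Set.disjoint_left]
    rintro _ ⟨p, hp, rfl⟩
    refine not_exceptional hφ hK ?_ hp.2.2
    have h1 := (hloc p.1 hp.1 p.2 hp.2.1 hp.2.2).2
    exact closedBall_subset_ball (by linarith) h1
  · have h1 := hlip.hausdorffMeasure_image_le (d := (finrank ℝ (Cn n) : ℝ)) (by positivity)
    rw [← hν] at h1
    refine (measure_mono hsurj).trans (h1.trans (le_of_eq ?_))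
    rw [ENNReal.rpow_natCast]
    norm_num

theorem null_hausdorff {Ω : Set (Cn n)} (hΩ : IsOpen Ω) {φ : Cn n → EReal} (hφ : IsPSH Ω φ) :
    (μH[(finrank ℝ (Cn n) : ℝ)] : Measure (Cn n)) (exceptional Ω φ) = 0 := by
  set ν : Measure (Cn n) := μH[(finrank ℝ (Cn n) : ℝ)] with hν
  set B := exceptional Ω φ with hB
  by_contra hne
  have hd := Besicovitch.ae_tendsto_measure_inter_div ν B
  obtain ⟨x₀, hx₀B, hx₀⟩ : ∃ x ∈ B, Tendsto (fun r => ν (B ∩ closedBall x r) /
      ν (closedBall x r)) (𝓝[>] 0) (𝓝 1) := by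
    by_contra hcon
    push Not at hcon
    have h1 : ν ({x | ¬ Tendsto (fun r => ν (B ∩ closedBall x r) /
      ν (closedBall x r)) (𝓝[>] 0) (𝓝 1)} ∩ B) ≤ 0 := by
      refine (Measure.le_restrict_apply _ _).trans (le_of_eq ?_)
      exact hd
    have h2 : B ⊆ {x | ¬ Tendsto (fun r => ν (B ∩ closedBall x r) /
      ν (closedBall x r)) (𝓝[>] 0) (𝓝 1)} ∩ B := fun x hx => ⟨hcon x hx, hx⟩
    exact hne (le_antisymm ((measure_mono h2).trans h1) zero_le)
  set m := finrank ℝ (Cn n) with hm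
  set c : ENNReal := ENNReal.ofReal ((1 / 64) ^ m) / 16 ^ m with hc
  have hc0 : c ≠ 0 := by
    rw [hc]
    refine (ENNReal.div_pos ?_ ?_).ne'
    · simp
    · exact ENNReal.pow_ne_top (by norm_num)
  have h16 : (16 : ENNReal) ^ m ≠ 0 := by positivity
  have h16' : (16 : ENNReal) ^ m ≠ ⊤ := ENNReal.pow_ne_top (by norm_num)
  -- choose the radius
  have h1 : ∀ᶠ r in 𝓝[>] (0 : ℝ), 1 - c / 2 < ν (B ∩ closedBall x₀ r) / ν (closedBall x₀ r) := by
    refine hx₀.eventually (lt_mem_nhds ?_)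
    exact ENNReal.sub_lt_self ENNReal.one_ne_top one_ne_zero
      (ENNReal.div_pos hc0 (by norm_num)).ne'
  have h2 : ∀ᶠ r in 𝓝[>] (0 : ℝ), closedBall x₀ r ⊆ Ω := by
    obtain ⟨ε, hε, hεΩ⟩ := Metric.isOpen_iff.1 hΩ x₀ hx₀B.1
    filter_upwards [Ioo_mem_nhdsGT hε] with r hr
    exact (closedBall_subset_ball hr.2).trans hεΩ
  obtain ⟨R, ⟨h3, h4⟩, hR⟩ := ((h1.and h2).and self_mem_nhdsWithin).exists
  have hR0 : 0 < R := hR
  -- a point with a finite value
  obtain ⟨x₁, hx₁, hb⟩ : ∃ x₁ ∈ closedBall x₀ (R / 64), φ x₁ ≠ ⊥ := by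
    by_contra hcon
    push Not at hcon
    refine hx₀B.2 ⟨ball x₀ (R / 64), fun _ => 0, isOpen_ball,
      ((ball_subset_ball (by linarith)).trans ball_subset_closedBall).trans h4,
      mem_ball_self (by positivity), contDiffOn_const, fun y hy => ?_⟩
    rw [hcon y (ball_subset_closedBall hy), EReal.bot_sub]
    exact bot_le
  obtain ⟨A, hA1, hA2, hA3, hA4⟩ := measure_contact ν hν hφ hR0 h4 hx₁ hb
  have hKpos : ν (closedBall x₀ R) ≠ 0 := (measure_closedBall_pos ν x₀ hR0).ne'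
  have hKfin : ν (closedBall x₀ R) ≠ ⊤ := measure_closedBall_lt_top.ne
  have h5 : ν (closedBall x₀ (R / 64)) = ENNReal.ofReal ((1 / 64) ^ m) * ν (closedBall x₀ R) := by
    have := Measure.addHaar_closedBall_mul ν x₀ (r := 1 / 64) (by norm_num) hR0.le
    rw [← Measure.addHaar_closedBall_center ν x₀ R] at this
    rw [← this]
    congr 2
    ring
  have h6 : c * ν (closedBall x₀ R) ≤ ν A := by
    rw [hc]
    rw [h5] at hA4
    rw [div_eq_mul_inv, mul_comm _ (16 ^ m : ENNReal)⁻¹, mul_assoc]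
    calc (16 ^ m : ENNReal)⁻¹ * (ENNReal.ofReal ((1 / 64) ^ m) * ν (closedBall x₀ R))
        ≤ (16 ^ m : ENNReal)⁻¹ * (16 ^ m * ν A) := mul_le_mul_right hA4 _
      _ = ν A := by rw [← mul_assoc, ENNReal.inv_mul_cancel h16 h16', one_mul]
  have h7 : ν A + ν (B ∩ closedBall x₀ R) ≤ ν (closedBall x₀ R) := by
    rw [← measure_union' (hA3.mono_right inter_subset_left) hA1.measurableSet]
    exact measure_mono (union_subset hA2 inter_subset_right)
  have h8 : (1 - c / 2) * ν (closedBall x₀ R) ≤ ν (B ∩ closedBall x₀ R) :=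
    (ENNReal.le_div_iff_mul_le (Or.inl hKpos) (Or.inl hKfin)).1 h3.le
  have hc1 : c ≠ ⊤ := ENNReal.div_ne_top ENNReal.ofReal_ne_top h16
  have h9 : (c + (1 - c / 2)) * ν (closedBall x₀ R) ≤ 1 * ν (closedBall x₀ R) := by
    rw [add_mul, one_mul]
    exact (add_le_add h6 h8).trans h7
  have h10 : c + (1 - c / 2) ≤ 1 := by
    by_contra h
    rw [not_le] at h
    exact absurd h9 (not_le.2 ((ENNReal.mul_lt_mul_iff_left hKpos hKfin).2 h))
  have h11 : c / 2 + c / 2 = c := ENNReal.add_halves c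
  have h12 : 1 ≤ c / 2 + (1 - c / 2) := le_add_tsub
  have h13 : c / 2 + 1 ≤ 1 := by
    calc c / 2 + 1 ≤ c / 2 + (c / 2 + (1 - c / 2)) := by gcongr
      _ = c + (1 - c / 2) := by rw [← add_assoc, h11]
      _ ≤ 1 := h10
  have h14 : c / 2 ≤ 0 := by
    have : c / 2 + 1 ≤ 0 + 1 := by rwa [zero_add]
    exact ENNReal.le_of_add_le_add_right ENNReal.one_ne_top this
  exact (ENNReal.div_pos hc0 (by norm_num)).ne' (le_antisymm h14 zero_le)

theorem null_volume {Ω : Set (Cn n)} (hΩ : IsOpen Ω) {φ : Cn n → EReal} (hφ : IsPSH Ω φ)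
    (μ : Measure (Cn n)) [μ.IsAddHaarMeasure] : μ (exceptional Ω φ) = 0 := by
  have h1 := Measure.isAddLeftInvariant_eq_smul μ (μH[(finrank ℝ (Cn n) : ℝ)] : Measure (Cn n))
  rw [h1, Measure.smul_apply, null_hausdorff hΩ hφ, smul_zero]

end Pool.Agent.R234.VT
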